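import Mathlib

/-!
Every finite-dimensional commutative algebra over an infinite field has a basis all of whose
structure constants are nonzero.
-/

open Module Function

namespace Pool.Agent.Helper33

section dets

variable {k V ι : Type*} [Field k] [AddCommGroup V] [Module k V] [Fintype ι] [DecidableEq ι]

/-- expanding the determinant after replacing one basis vector. -/
theorem det_update_eq (b e : Basis ι k V) (l : ι) (x : V) :
    b.det (update (⇑e) l x) = e.repr x l * b.det e := by
  classical
  let φ : V →ₗ[k] k := (b.det.toMultilinearMap.toLinearMap (⇑e) l)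
  let ψ : V →ₗ[k] k := (b.det (⇑e)) • ((LinearMap.proj l).comp (e.equivFun : V →ₗ[k] (ι → k)))
  have h : φ = ψ := by
    apply e.ext
    intro m
    by_cases hm : m = l
    · subst hm
      simp [φ, ψ, MultilinearMap.toLinearMap]
    · have h1 : b.det (update (⇑e) l (e m)) = 0 :=
        AlternatingMap.map_update_self b.det (⇑e) (Ne.symm hm)
      simp only [φ, ψ, MultilinearMap.toLinearMap_apply, AlternatingMap.coe_multilinearMap]
      rw [h1]
      simp [Finsupp.single_apply, hm]
  have h2 := LinearMap.congr_fun h x
  simp only [φ, ψ, MultilinearMap.toLinearMap_apply, AlternatingMap.coe_multilinearMap] at h2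
  rw [h2]
  simp [mul_comm]

end dets

section elements

variable {k A : Type*} [Field k] [Infinite k] [CommRing A] [Algebra k A]

/-- if the dimension is at least two there is `x` with `x, x ^ 2` independent. -/
theorem exists_indep_sq (y : A) (hy : ∀ c : k, y ≠ algebraMap k A c) :
    ∃ x : A, LinearIndependent k ![x, x * x] := by
  by_contra hcon
  push Not at hcon
  have hA : Nontrivial A := by
    by_contra hn
    rw [not_nontrivial_iff_subsingleton] at hn
    exact hy 0 (Subsingleton.elim _ _)
  have hne : ∀ s : k, y + algebraMap k A s ≠ 0 := by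
    intro s h0
    apply hy (-s)
    rw [map_neg]
    linear_combination h0
  have key : ∀ s : k, ∃ c : k, (y + algebraMap k A s) * (y + algebraMap k A s)
      = c • (y + algebraMap k A s) := by
    intro s
    have h := hcon (y + algebraMap k A s)
    rw [LinearIndependent.pair_iff' (hne s)] at h
    push Not at h
    obtain ⟨a, ha⟩ := h
    exact ⟨a, ha.symm⟩
  obtain ⟨c0, hc0⟩ := key 0
  -- choose s ≠ 0 and s ≠ -c0
  classical
  obtain ⟨s, hs⟩ := Infinite.exists_notMem_finset ({0, -c0} : Finset k)
  simp only [Finset.mem_insert, Finset.mem_singleton, not_or] at hs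
  obtain ⟨hs0, hs1⟩ := hs
  obtain ⟨c, hc⟩ := key s
  simp only [map_zero, add_zero] at hc0
  -- relation
  have hrel : (c0 + 2 * s - c) • y = (c * s - s * s) • (1 : A) := by
    simp only [Algebra.smul_def, map_sub, map_add, map_mul, map_ofNat] at hc hc0 ⊢
    linear_combination hc - hc0
  by_cases hcoef : c0 + 2 * s - c = 0
  · rw [hcoef, zero_smul] at hrel
    have h1 : c * s - s * s = 0 := by
      by_contra hne1
      have := smul_ne_zero hne1 (one_ne_zero : (1 : A) ≠ 0)
      exact this hrel.symm
    have hc1 : c = s := by
      have : (c - s) * s = 0 := by linear_combination h1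
      rcases mul_eq_zero.mp this with h | h
      · linear_combination h
      · exact absurd h hs0
    apply hs1
    linear_combination hcoef + hc1
  · apply hy ((c0 + 2 * s - c)⁻¹ * (c * s - s * s))
    have := congrArg (fun z => (c0 + 2 * s - c)⁻¹ • z) hrel
    simp only [smul_smul, inv_mul_cancel₀ hcoef, one_smul] at this
    rw [this, Algebra.algebraMap_eq_smul_one]

omit [Infinite k] in
/-- if `1, x, y` are independent, there are `u, v` with `u, v, u * v` independent. -/
theorem exists_indep_mul (x y : A) (hxy : LinearIndependent k ![(1 : A), x, y]) :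
    ∃ u v : A, LinearIndependent k ![u, v, u * v] := by
  have hxy' := hxy
  rw [Fintype.linearIndependent_iff] at hxy
  by_cases hmem : x * y ∈ Submodule.span k (Set.range ![(1 : A), x, y])
  · rw [Submodule.mem_span_range_iff_exists_fun] at hmem
    obtain ⟨c, hc⟩ := hmem
    simp only [Fin.sum_univ_three, Matrix.cons_val_zero, Matrix.cons_val_one,
      Matrix.cons_val_two, Matrix.head_cons, Matrix.tail_cons] at hc
    -- find s r
    have hsr : ∃ s r : k, c 0 - c 1 * s - c 2 * r - s * r ≠ 0 := by
      by_contra hcon
      push Not at hcon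
      have h00 := hcon 0 0
      have h10 := hcon 1 0
      have h01 := hcon 0 1
      have h11 := hcon 1 1
      apply (one_ne_zero : (1 : k) ≠ 0)
      linear_combination h10 + h01 - h11 - h00
    obtain ⟨s, r, hsr⟩ := hsr
    refine ⟨x + s • (1 : A), y + r • (1 : A), ?_⟩
    have hprod : (x + s • (1 : A)) * (y + r • (1 : A)) =
        (c 0 - c 1 * s - c 2 * r - s * r) • (1 : A) + (c 1 + r) • (x + s • (1 : A))
          + (c 2 + s) • (y + r • (1 : A)) := by
      simp only [Algebra.smul_def, map_sub, map_add, map_mul, mul_one] at hc ⊢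
      linear_combination -hc
    rw [hprod]
    set q := c 0 - c 1 * s - c 2 * r - s * r with hq
    rw [Fintype.linearIndependent_iff]
    intro g hg
    simp only [Fin.sum_univ_three, Matrix.cons_val_zero, Matrix.cons_val_one,
      Matrix.cons_val_two, Matrix.head_cons, Matrix.tail_cons] at hg
    have h := hxy ![g 0 * s + g 1 * r + g 2 * (q + (c 1 + r) * s + (c 2 + s) * r),
      g 0 + g 2 * (c 1 + r), g 1 + g 2 * (c 2 + s)] (by
        simp only [Fin.sum_univ_three, Matrix.cons_val_zero, Matrix.cons_val_one,
          Matrix.cons_val_two, Matrix.head_cons, Matrix.tail_cons]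
        simp only [Algebra.smul_def, map_add, map_mul, mul_one] at hg ⊢
        linear_combination hg)
    have h0 := h 0
    have h1 := h 1
    have h2 := h 2
    simp only [Matrix.cons_val_zero, Matrix.cons_val_one, Matrix.cons_val_two,
      Matrix.head_cons, Matrix.tail_cons] at h0 h1 h2
    have hg2 : g 2 = 0 := by
      have : g 2 * q = 0 := by linear_combination h0 - s * h1 - r * h2
      rcases mul_eq_zero.mp this with h | h
      · exact h
      · exact absurd h hsr
    intro i
    fin_cases i
    · simp only [Fin.zero_eta]
      linear_combination h1 - (c 1 + r) * hg2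
    · simp only [Fin.mk_one]
      linear_combination h2 - (c 2 + s) * hg2
    · exact hg2
  · refine ⟨x, y, ?_⟩
    rw [Fintype.linearIndependent_iff]
    intro g hg
    simp only [Fin.sum_univ_three, Matrix.cons_val_zero, Matrix.cons_val_one,
      Matrix.cons_val_two, Matrix.head_cons, Matrix.tail_cons] at hg
    have hg2 : g 2 = 0 := by
      by_contra hne
      apply hmem
      rw [Submodule.mem_span_range_iff_exists_fun]
      refine ⟨![0, -(g 2)⁻¹ * g 0, -(g 2)⁻¹ * g 1], ?_⟩
      simp only [Fin.sum_univ_three, Matrix.cons_val_zero, Matrix.cons_val_one,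
        Matrix.cons_val_two, Matrix.head_cons, Matrix.tail_cons, zero_smul, zero_add]
      have h2 := congrArg (fun z => (g 2)⁻¹ • z) hg
      simp only [smul_add, smul_smul, inv_mul_cancel₀ hne, one_smul, smul_zero] at h2
      simp only [neg_mul, neg_smul]
      linear_combination -h2
    rw [hg2, zero_smul, add_zero] at hg
    have h := hxy ![0, g 0, g 1] (by
        simp only [Fin.sum_univ_three, Matrix.cons_val_zero, Matrix.cons_val_one,
          Matrix.cons_val_two, Matrix.head_cons, Matrix.tail_cons, zero_smul, zero_add]
        exact hg)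
    have h1 := h 1
    have h2 := h 2
    simp only [Matrix.cons_val_one, Matrix.cons_val_two,
      Matrix.head_cons, Matrix.tail_cons] at h1 h2
    intro i
    fin_cases i
    · exact h1
    · exact h2
    · exact hg2

end elements

section extend

variable {k V : Type*} [Field k] [AddCommGroup V] [Module k V]

theorem exists_basis_extending {ι κ : Type*} [Finite κ] (f : κ → ι) (hf : Function.Injective f)
    (u : κ → V) (hu : LinearIndependent k u) (b0 : Basis ι k V) :
    ∃ w : Basis ι k V, ∀ i, w (f i) = u i := by
  classical
  have hs : LinearIndepOn k id (Set.range u) := hu.linearIndepOn_id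
  let b := Basis.extend hs
  let c0 := b.indexEquiv b0
  have hmem : ∀ i, u i ∈ hs.extend (Set.subset_univ _) := fun i =>
    hs.subset_extend _ (Set.mem_range_self i)
  obtain ⟨σ, hσ⟩ := Equiv.Perm.exists_extending_pair (fun i => c0 ⟨u i, hmem i⟩) f
    (by
      intro i j hij
      have := c0.injective hij
      exact hu.injective (Subtype.ext_iff.mp this)) hf
  refine ⟨b.reindex (c0.trans σ), fun i => ?_⟩
  rw [Basis.reindex_apply, ← hσ i]
  simp [b]

end extend

section poly

variable {k A : Type*} [Field k] [CommRing A] [Algebra k A]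
variable {ι : Type*} [Fintype ι] [DecidableEq ι]

/-- coordinates of the product of the two generic vectors number `i` and `j`. -/
noncomputable def genProd (b : Basis ι k A) (i j : ι) (m : ι) : MvPolynomial (ι × ι) k :=
  ∑ a, ∑ c, MvPolynomial.X (i, a) * MvPolynomial.X (j, c) * MvPolynomial.C (b.repr (b a * b c) m)

/-- the generic matrix. -/
noncomputable def genMat (k ι : Type*) [Field k] : Matrix ι ι (MvPolynomial (ι × ι) k) :=
  fun i j => MvPolynomial.X (i, j)

/-- the vectors attached to a matrix. -/
noncomputable def vecs (b : Basis ι k A) (G : ι × ι → k) (i : ι) : A := ∑ j, G (i, j) • b j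

theorem repr_vecs (b : Basis ι k A) (G : ι × ι → k) (i m : ι) :
    b.repr (vecs b G i) m = G (i, m) := by
  simp [vecs, Finsupp.single_apply]

theorem repr_vecs_mul (b : Basis ι k A) (G : ι × ι → k) (i j m : ι) :
    b.repr (vecs b G i * vecs b G j) m = MvPolynomial.eval G (genProd b i j m) := by
  simp only [vecs, genProd, map_sum, map_mul, MvPolynomial.eval_X, MvPolynomial.eval_C,
    Finset.sum_mul, Finset.mul_sum, smul_mul_smul_comm, map_smul, Finsupp.coe_finset_sum,
    Finset.sum_apply, Finsupp.coe_smul, Pi.smul_apply, smul_eq_mul]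
  rw [Finset.sum_comm]

theorem eval_det_genMat (b : Basis ι k A) (G : ι × ι → k) :
    MvPolynomial.eval G (genMat k ι).det = b.det (vecs b G) := by
  rw [Basis.det_apply, ← Matrix.det_transpose, RingHom.map_det]
  congr 1
  ext i j
  simp [genMat, Basis.toMatrix_apply, repr_vecs]

theorem eval_det_update (b : Basis ι k A) (G : ι × ι → k) (i j l : ι) :
    MvPolynomial.eval G ((genMat k ι).updateRow l (genProd b i j)).det =
      b.det (update (vecs b G) l (vecs b G i * vecs b G j)) := by
  rw [Basis.det_apply, ← Matrix.det_transpose, RingHom.map_det]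
  congr 1
  ext p q
  simp only [RingHom.mapMatrix_apply, Matrix.map_apply, Matrix.transpose_apply,
    Basis.toMatrix_apply, Matrix.updateRow_apply, Function.update_apply]
  split_ifs with h
  · rw [repr_vecs_mul]
  · simp [genMat, repr_vecs]

theorem exists_vecs_eq (b : Basis ι k A) (w : ι → A) : ∃ G : ι × ι → k, vecs b G = w := by
  refine ⟨fun p => b.repr (w p.1) p.2, ?_⟩
  funext i
  simp [vecs, b.sum_repr]

end poly

section main

variable {k A : Type*} [Field k] [Infinite k] [CommRing A] [Algebra k A]
variable {ι : Type*} [Fintype ι] [DecidableEq ι]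

/-- for each triple of indices there is a family witnessing that the polynomial is nonzero. -/
theorem exists_witness (b : Basis ι k A) (i j l : ι) :
    ∃ w : ι → A, b.det (update w l (w i * w j)) ≠ 0 := by
  have hA : Nontrivial A := ⟨b i, 0, b.ne_zero i⟩
  have hone : ∀ m : ι, ∃ w : Basis ι k A, w m = 1 := by
    intro m
    obtain ⟨w, hw⟩ := exists_basis_extending (fun _ : Unit => m) (fun _ _ _ => Subsingleton.elim _ _)
      (fun _ => (1 : A)) (LinearIndependent.of_subsingleton () one_ne_zero) b
    exact ⟨w, hw ()⟩
  by_cases hi : l = i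
  · obtain ⟨w, hw⟩ := hone j
    refine ⟨w, ?_⟩
    rw [hw, mul_one, hi, update_eq_self]
    exact (b.isUnit_det w).ne_zero
  by_cases hj : l = j
  · obtain ⟨w, hw⟩ := hone i
    refine ⟨w, ?_⟩
    rw [hw, one_mul, hj, update_eq_self]
    exact (b.isUnit_det w).ne_zero
  by_cases hij : i = j
  · subst hij
    obtain ⟨w, hw⟩ := hone i
    obtain ⟨x, hx⟩ := exists_indep_sq (k := k) (w l) (by
      intro c hc
      have h1 : w l = c • w i := by rw [hc, hw, Algebra.algebraMap_eq_smul_one]
      have h2 := congrArg (fun z => w.repr z l) h1
      simp [Finsupp.single_apply, Ne.symm hi] at h2)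
    obtain ⟨w', hw'⟩ := exists_basis_extending (![i, l] : Fin 2 → ι)
      (by
        intro a b hab
        fin_cases a <;> fin_cases b <;> simp_all)
      ![x, x * x] hx b
    have h0 := hw' 0
    have h1 := hw' 1
    simp only [Matrix.cons_val_zero, Matrix.cons_val_one] at h0 h1
    refine ⟨w', ?_⟩
    rw [h0, ← h1, update_eq_self]
    exact (b.isUnit_det w').ne_zero
  · obtain ⟨w, hw⟩ := hone i
    have hli : LinearIndependent k ![(1 : A), w j, w l] := by
      have := w.linearIndependent.comp (![i, j, l] : Fin 3 → ι) (by
        intro a b hab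
        fin_cases a <;> fin_cases b <;> simp_all)
      convert this using 1
      ext a
      fin_cases a <;> simp [hw]
    obtain ⟨x, y, hxy⟩ := exists_indep_mul (k := k) (w j) (w l) hli
    obtain ⟨w', hw'⟩ := exists_basis_extending (![i, j, l] : Fin 3 → ι)
      (by
        intro a b hab
        fin_cases a <;> fin_cases b <;> simp_all)
      ![x, y, x * y] hxy b
    have h0 := hw' 0
    have h1 := hw' 1
    have h2 := hw' 2
    simp only [Matrix.cons_val_zero, Matrix.cons_val_one, Matrix.cons_val_two,
      Matrix.head_cons, Matrix.tail_cons] at h0 h1 h2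
    refine ⟨w', ?_⟩
    rw [h0, h1, ← h2, update_eq_self]
    exact (b.isUnit_det w').ne_zero

/-- A finite-dimensional commutative algebra over an infinite field has a basis with all structure
constants nonzero. -/
theorem exists_basis_structure_ne_zero (b : Basis ι k A) :
    ∃ e : Basis ι k A, ∀ i j l, e.repr (e i * e j) l ≠ 0 := by
  classical
  set P : MvPolynomial (ι × ι) k := (genMat k ι).det *
    ∏ p : ι × ι × ι, ((genMat k ι).updateRow p.2.2 (genProd b p.1 p.2.1)).det with hP
  have hPne : P ≠ 0 := by
    rw [hP]
    refine mul_ne_zero ?_ ?_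
    · intro h
      obtain ⟨G, hG⟩ := exists_vecs_eq b b
      have := eval_det_genMat b G
      rw [h, map_zero, hG] at this
      exact (b.isUnit_det b).ne_zero this.symm
    · rw [Finset.prod_ne_zero_iff]
      rintro ⟨i, j, l⟩ - h
      obtain ⟨w, hw⟩ := exists_witness b i j l
      obtain ⟨G, hG⟩ := exists_vecs_eq b w
      have := eval_det_update b G i j l
      simp only at h
      rw [h, map_zero, hG] at this
      exact hw this.symm
  obtain ⟨G, hG⟩ : ∃ G, MvPolynomial.eval G P ≠ 0 := by
    by_contra hcon
    push Not at hcon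
    apply hPne
    apply MvPolynomial.funext
    intro x
    rw [hcon x, map_zero]
  rw [hP, map_mul, map_prod, mul_ne_zero_iff, Finset.prod_ne_zero_iff] at hG
  obtain ⟨hG1, hG2⟩ := hG
  rw [eval_det_genMat b G] at hG1
  have hunit : IsUnit (b.det (vecs b G)) := isUnit_iff_ne_zero.mpr hG1
  rw [← Module.Basis.is_basis_iff_det b] at hunit
  let e : Basis ι k A := Basis.mk hunit.1 hunit.2.ge
  have he : ⇑e = vecs b G := Basis.coe_mk _ _
  refine ⟨e, fun i j l h => ?_⟩
  have := hG2 (i, j, l) (Finset.mem_univ _)
  simp only at this
  rw [eval_det_update, ← he, det_update_eq, h, zero_mul] at this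
  exact this rfl

end main

end Pool.Agent.Helper33
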