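import Mathlib

/-!
A finite geometrically reduced algebra over a field is split by a finite separable extension.
-/

open Module Polynomial TensorProduct

namespace Pool.Agent.Helper33

variable {K B : Type*} [Field K] [CommRing B] [Algebra K B]

theorem aeval_one_tmul {E : Type*} [Field E] [Algebra K E] (b : B) (r : E[X]) :
    aeval ((1 : E) ⊗ₜ[K] b) r = r.sum fun i c => c ⊗ₜ[K] (b ^ i) := by
  rw [aeval_eq_sum_range, Polynomial.sum_over_range _ (by simp)]
  refine Finset.sum_congr rfl fun i _ => ?_
  rw [Algebra.TensorProduct.tmul_pow, one_pow, TensorProduct.smul_tmul', smul_eq_mul, mul_one]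

theorem eq_zero_of_aeval_eq_zero {E : Type*} [Field E] [Algebra K E] (b : B) (r : E[X])
    (hdeg : r.natDegree < (minpoly K b).natDegree) (h : aeval ((1 : E) ⊗ₜ[K] b) r = 0) :
    r = 0 := by
  classical
  have hli := linearIndependent_pow (K := K) b
  let bb := Basis.extend hli.linearIndepOn_id
  have hmem : ∀ i : Fin (minpoly K b).natDegree, b ^ (i : ℕ) ∈
      hli.linearIndepOn_id.extend (Set.subset_univ _) := fun i =>
    hli.linearIndepOn_id.subset_extend _ (Set.mem_range_self i)
  let bE := Algebra.TensorProduct.basis E bb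
  have hli2 : LinearIndependent E (fun i : Fin (minpoly K b).natDegree =>
      ((1 : E) ⊗ₜ[K] (b ^ (i : ℕ)))) := by
    have := bE.linearIndependent.comp (fun i : Fin (minpoly K b).natDegree =>
      (⟨b ^ (i : ℕ), hmem i⟩ : hli.linearIndepOn_id.extend (Set.subset_univ _))) (by
        intro i j hij
        exact hli.injective (Subtype.ext_iff.mp hij))
    convert this using 1
    funext i
    simp [bE, bb]
  rw [Fintype.linearIndependent_iff] at hli2
  have h2 := hli2 (fun i => r.coeff i) (by
    rw [aeval_eq_sum_range' hdeg] at h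
    rw [Finset.sum_range] at h
    convert h using 1
    refine Finset.sum_congr rfl fun i _ => ?_
    rw [Algebra.TensorProduct.tmul_pow, one_pow])
  ext i
  by_cases hi : i < (minpoly K b).natDegree
  · simpa using h2 ⟨i, hi⟩
  · rw [coeff_eq_zero_of_natDegree_lt (lt_of_lt_of_le hdeg (not_lt.mp hi)), coeff_zero]

theorem minpoly_separable [Module.Finite K B] (hred : IsReduced (AlgebraicClosure K ⊗[K] B))
    (b : B) : (minpoly K b).Separable := by
  set E := AlgebraicClosure K
  have hint : IsIntegral K b := Algebra.IsIntegral.isIntegral b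
  have hmonic := minpoly.monic hint
  rw [← Polynomial.separable_map (algebraMap K E), PerfectField.separable_iff_squarefree]
  intro x hx
  by_contra hunit
  obtain ⟨q, hq⟩ := hx
  set g := (minpoly K b).map (algebraMap K E) with hg
  have hg0 : g ≠ 0 := (hmonic.map _).ne_zero
  have hx0 : x ≠ 0 := by rintro rfl; simp at hq; exact hg0 hq
  have hq0 : q ≠ 0 := by rintro rfl; simp at hq; exact hg0 hq
  have hdegx : 0 < x.natDegree := by
    rw [Nat.pos_iff_ne_zero]
    intro h
    exact hunit (isUnit_iff_degree_eq_zero.mpr (by rw [degree_eq_natDegree hx0, h]; rfl))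
  have hdeg : (x * q).natDegree < (minpoly K b).natDegree := by
    have h1 : g.natDegree = (minpoly K b).natDegree := natDegree_map _
    rw [← h1, hq, natDegree_mul (mul_ne_zero hx0 hx0) hq0, natDegree_mul hx0 hx0,
      natDegree_mul hx0 hq0]
    omega
  have hev : aeval ((1 : E) ⊗ₜ[K] b) g = 0 := by
    rw [hg, aeval_map_algebraMap]
    have : aeval ((1 : E) ⊗ₜ[K] b) (minpoly K b) =
        (Algebra.TensorProduct.includeRight : B →ₐ[K] E ⊗[K] B) (aeval b (minpoly K b)) := by
      rw [← aeval_algHom_apply]
      rfl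
    rw [this, minpoly.aeval, map_zero]
  have hsq : (aeval ((1 : E) ⊗ₜ[K] b) (x * q)) ^ 2 = 0 := by
    rw [← map_pow]
    have : (x * q) ^ 2 = g * q := by rw [hq]; ring
    rw [this, map_mul, hev, zero_mul]
  have hz : aeval ((1 : E) ⊗ₜ[K] b) (x * q) = 0 := by
    have : IsNilpotent (aeval ((1 : E) ⊗ₜ[K] b) (x * q)) := ⟨2, hsq⟩
    exact this.eq_zero
  have := eq_zero_of_aeval_eq_zero b (x * q) hdeg hz
  exact mul_ne_zero hx0 hq0 this

/-- If all minimal polynomials of a spanning set split in `L` and `L ⊗ B` is reduced, it is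
isomorphic to a power of `L`. -/
theorem split_of_splits [Module.Finite K B] (L : Type*) [Field L] [Algebra K L]
    [hred : IsReduced (L ⊗[K] B)]
    {ι : Type*} [Fintype ι] (c : Basis ι K B)
    (hsplit : ∀ i, ((minpoly K (c i)).map (algebraMap K L)).Splits) :
    Nonempty (L ⊗[K] B ≃ₐ[L] (Fin (finrank K B) → L)) := by
  classical
  let C := L ⊗[K] B
  have : Module.Finite L C := inferInstance
  have : IsArtinianRing C := IsArtinianRing.of_finite L C
  -- residue fields
  have hsurj : ∀ M : MaximalSpectrum C, Function.Surjective (algebraMap L (C ⧸ M.asIdeal)) := by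
    intro M
    have : M.asIdeal.IsMaximal := M.isMaximal
    let _ : Field (C ⧸ M.asIdeal) := Ideal.Quotient.field M.asIdeal
    let q : C →ₐ[L] C ⧸ M.asIdeal := Ideal.Quotient.mkₐ L M.asIdeal
    let ψ : B →ₐ[K] C ⧸ M.asIdeal :=
      (q.restrictScalars K).comp (Algebra.TensorProduct.includeRight : B →ₐ[K] L ⊗[K] B)
    have hc : ∀ i, ∃ a : L, algebraMap L (C ⧸ M.asIdeal) a = ψ (c i) := by
      intro i
      have hint : IsIntegral K (c i) := Algebra.IsIntegral.isIntegral (c i)
      have hroot : (((minpoly K (c i)).map (algebraMap K L)).map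
          (algebraMap L (C ⧸ M.asIdeal))).IsRoot (ψ (c i)) := by
        rw [IsRoot.def, eval_map_algebraMap, aeval_map_algebraMap, aeval_algHom_apply,
          minpoly.aeval, map_zero]
      exact (hsplit i).mem_range_of_isRoot ((minpoly.monic hint).map _).ne_zero hroot
    choose a ha using hc
    intro z
    obtain ⟨x, rfl⟩ := Ideal.Quotient.mk_surjective z
    induction x using TensorProduct.induction_on with
    | zero => exact ⟨0, by simp⟩
    | add x y hx hy =>
      obtain ⟨a, ha⟩ := hx
      obtain ⟨b, hb⟩ := hy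
      exact ⟨a + b, by rw [map_add, ha, hb, map_add]⟩
    | tmul l b =>
      refine ⟨l * ∑ i, algebraMap K L (c.repr b i) * a i, ?_⟩
      have h1 : (Ideal.Quotient.mk M.asIdeal) (l ⊗ₜ[K] b) =
          algebraMap L (C ⧸ M.asIdeal) l * ψ b := by
        have : (l ⊗ₜ[K] b : C) = algebraMap L C l * ((1 : L) ⊗ₜ[K] b) := by
          simp [C, Algebra.TensorProduct.algebraMap_apply]
        rw [this, map_mul]
        rfl
      have h2 : ψ b = ∑ i, algebraMap L (C ⧸ M.asIdeal) (algebraMap K L (c.repr b i) * a i) := by
        conv_lhs => rw [← c.sum_repr b]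
        rw [map_sum]
        refine Finset.sum_congr rfl fun i _ => ?_
        rw [map_smul, map_mul, ha, Algebra.smul_def]
        rfl
      rw [h1, h2, map_mul, map_sum]
  have hbij : ∀ M : MaximalSpectrum C, Function.Bijective (algebraMap L (C ⧸ M.asIdeal)) := by
    intro M
    have : M.asIdeal.IsMaximal := M.isMaximal
    let _ : Field (C ⧸ M.asIdeal) := Ideal.Quotient.field M.asIdeal
    exact ⟨(algebraMap L (C ⧸ M.asIdeal)).injective, hsurj M⟩
  let e1 : C ≃ₐ[L] ((I : MaximalSpectrum C) → C ⧸ I.asIdeal) :=
    (IsArtinianRing.equivPi C).restrictScalars L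
  let e2 : ((I : MaximalSpectrum C) → C ⧸ I.asIdeal) ≃ₐ[L] (MaximalSpectrum C → L) :=
    AlgEquiv.piCongrRight fun I =>
      (AlgEquiv.ofBijective (Algebra.ofId L (C ⧸ I.asIdeal)) (hbij I)).symm
  have hfin : Finite (MaximalSpectrum C) := inferInstance
  let _ : Fintype (MaximalSpectrum C) := Fintype.ofFinite _
  have hcard : Fintype.card (MaximalSpectrum C) = finrank K B := by
    have h1 : finrank L C = Fintype.card (MaximalSpectrum C) := by
      rw [(e1.trans e2).toLinearEquiv.finrank_eq, finrank_fintype_fun_eq_card]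
    rw [← h1]
    exact finrank_baseChange
  let e3 : (MaximalSpectrum C → L) ≃ₐ[L] (Fin (finrank K B) → L) :=
    AlgEquiv.piCongrLeft L (fun _ => L) (Fintype.equivFinOfCardEq hcard)
  exact ⟨(e1.trans e2).trans e3⟩

/-- The minimal polynomials of a basis of a finite geometrically reduced algebra split in a finite
separable extension. -/
theorem exists_splitting [Module.Finite K B] (hred : IsReduced (AlgebraicClosure K ⊗[K] B))
    {ι : Type*} [Finite ι] (c : Basis ι K B) :
    ∃ L : IntermediateField K (AlgebraicClosure K), FiniteDimensional K L ∧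
      Algebra.IsSeparable K L ∧ ∀ i, ((minpoly K (c i)).map (algebraMap K L)).Splits := by
  classical
  let E := AlgebraicClosure K
  let T : Set E := ⋃ i, (minpoly K (c i)).rootSet E
  have hTfin : T.Finite := Set.finite_iUnion fun i => Polynomial.rootSet_finite _ _
  have : Finite T := hTfin
  have hint : ∀ x ∈ T, IsIntegral K x := fun x _ => Algebra.IsIntegral.isIntegral x
  let L := IntermediateField.adjoin K T
  have hfd : FiniteDimensional K L := IntermediateField.finiteDimensional_adjoin hint
  have hsep : Algebra.IsSeparable K L := by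
    rw [IntermediateField.isSeparable_adjoin_iff_isSeparable]
    intro x hx
    rw [Set.mem_iUnion] at hx
    obtain ⟨i, hi⟩ := hx
    exact (minpoly_separable hred (c i)).of_dvd
      (minpoly.dvd K x (aeval_eq_zero_of_mem_rootSet hi))
  refine ⟨L, hfd, hsep, fun i => ?_⟩
  exact IntermediateField.splits_of_splits (IsAlgClosed.splits _) fun x hx =>
    IntermediateField.subset_adjoin K T (Set.mem_iUnion.mpr ⟨i, hx⟩)

end Pool.Agent.Helper33
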