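import Mathlib
import Pool.Agent.Helper33.SplitExt
import Pool.Agent.Helper33.GenericBasis

/-!
Base change of finite free algebras: generic fibre and special fibre.
-/

open Module TensorProduct

namespace Pool.Agent.Helper33

universe u

section generic

/-- the generic fibre of the base change. -/
theorem baseChange_split {R K R' K' : Type u} [CommRing R] [Field K] [Algebra R K]
    [CommRing R'] [Field K'] [Algebra R' K'] [Algebra R R'] [Algebra K K'] [Algebra R K']
    [IsScalarTower R K K'] [IsScalarTower R R' K'] (M : Type u) [CommRing M] [Algebra R M]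
    [Module.Finite R M] {ι : Type*} [Fintype ι] (c : Basis ι K (K ⊗[R] M))
    (hsplit : ∀ i, ((minpoly K (c i)).map (algebraMap K K')).Splits)
    (hred : IsReduced (K' ⊗[K] (K ⊗[R] M))) :
    Nonempty (K' ⊗[R'] (R' ⊗[R] M) ≃ₐ[K'] (Fin (finrank K (K ⊗[R] M)) → K')) := by
  obtain ⟨e⟩ := split_of_splits K' c hsplit
  let e1 : K' ⊗[R'] (R' ⊗[R] M) ≃ₐ[K'] K' ⊗[R] M :=
    Algebra.TensorProduct.cancelBaseChange R R' K' K' M
  let e2 : K' ⊗[K] (K ⊗[R] M) ≃ₐ[K'] K' ⊗[R] M :=
    Algebra.TensorProduct.cancelBaseChange R K K' K' M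
  exact ⟨(e1.trans e2.symm).trans e⟩

end generic

section special

variable {k R M A : Type u} [Field k] [CommRing R] [CommRing M] [Algebra R M] [CommRing A]
  [Algebra k A]

/-- If `f : M → A` is the reduction modulo `x`, compatible with the reduction `q : R → k`, then
the image of an `R`-basis of `M` is a `k`-basis of `A`. -/
theorem exists_basis_special {ι : Type*} [Fintype ι] (b : Basis ι R M) (x : R) (q : R →+* k)
    (hq : Function.Surjective q) (hqx : RingHom.ker q = Ideal.span {x}) (f : M →+* A)
    (hf : Function.Surjective f) (hfx : RingHom.ker f = Ideal.span {algebraMap R M x})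
    (hfq : ∀ r, f (algebraMap R M r) = algebraMap k A (q r)) :
    ∃ bb : Basis ι k A, ∀ i, bb i = f (b i) := by
  classical
  have hsmul : ∀ (r : R) (m : M), f (r • m) = q r • f m := by
    intro r m
    rw [Algebra.smul_def, map_mul, hfq, Algebra.smul_def]
  have hli : LinearIndependent k (fun i => f (b i)) := by
    rw [Fintype.linearIndependent_iff]
    intro g hg i
    choose g' hg' using hq
    have h1 : f (∑ i, g' (g i) • b i) = 0 := by
      rw [map_sum, ← hg]
      refine Finset.sum_congr rfl fun i _ => ?_
      rw [hsmul, hg']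
    have h2 : (∑ i, g' (g i) • b i) ∈ Ideal.span {algebraMap R M x} := by
      rw [← hfx]
      exact h1
    rw [Ideal.mem_span_singleton] at h2
    obtain ⟨y, hy⟩ := h2
    have h3 := congrArg (fun z => b.repr z i) hy
    simp only [← Algebra.smul_def, map_smul] at h3
    simp only [map_sum, map_smul, Basis.repr_self, Finsupp.coe_finsetSum, Finset.sum_apply,
      Finsupp.smul_apply, Finsupp.single_apply, smul_eq_mul, mul_ite, mul_one, mul_zero,
      Finset.sum_ite_eq', Finset.sum_ite_eq, Finset.mem_univ, if_true] at h3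
    have h4 : g' (g i) ∈ RingHom.ker q := by
      rw [hqx, Ideal.mem_span_singleton]
      exact ⟨_, h3⟩
    rw [RingHom.mem_ker, hg'] at h4
    exact h4
  have hsp : ⊤ ≤ Submodule.span k (Set.range fun i => f (b i)) := by
    intro z _
    obtain ⟨m, rfl⟩ := hf z
    rw [← b.sum_repr m, map_sum]
    refine Submodule.sum_mem _ fun i _ => ?_
    rw [hsmul]
    exact Submodule.smul_mem _ _ (Submodule.subset_span ⟨i, rfl⟩)
  exact ⟨Basis.mk hli hsp, fun i => by rw [Basis.mk_apply]⟩

/-- lifting a `k`-basis of the special fibre to an `R`-basis. -/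
theorem exists_lift_basis {ι : Type*} [Fintype ι] [DecidableEq ι] (b : Basis ι R M) (q : R →+* k)
    (σ : k →+* R) (hσ : ∀ c, q (σ c) = c) (f : M →+* A)
    (hfq : ∀ r, f (algebraMap R M r) = algebraMap k A (q r))
    (bb : Basis ι k A) (hbb : ∀ i, bb i = f (b i)) (a : Basis ι k A) :
    ∃ a' : Basis ι R M, ∀ i, f (a' i) = a i := by
  classical
  have hsmul : ∀ (r : R) (m : M), f (r • m) = q r • f m := by
    intro r m
    rw [Algebra.smul_def, map_mul, hfq, Algebra.smul_def]
  let w : ι → M := fun i => ∑ j, σ (bb.repr (a i) j) • b j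
  have hw : ∀ i, f (w i) = a i := by
    intro i
    simp only [w, map_sum, hsmul, hσ, ← hbb]
    exact bb.sum_repr (a i)
  have hdet : b.det w = σ (bb.det a) := by
    rw [Basis.det_apply, Basis.det_apply, RingHom.map_det]
    congr 1
    ext i j
    simp [Basis.toMatrix_apply, w, Finsupp.single_apply]
  have hunit : IsUnit (b.det w) := by
    rw [hdet]
    exact (bb.isUnit_det a).map σ
  rw [← Module.Basis.is_basis_iff_det b] at hunit
  refine ⟨Basis.mk hunit.1 hunit.2.ge, fun i => ?_⟩
  rw [Basis.mk_apply, hw]

/-- the special fibre of the base change. -/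
theorem baseChange_special {ι : Type*} [Fintype ι] (b : Basis ι R M) (x : R) (q : R →+* k)
    (hq : Function.Surjective q) (hqx : RingHom.ker q = Ideal.span {x}) (f : M →+* A)
    (hf : Function.Surjective f) (hfx : RingHom.ker f = Ideal.span {algebraMap R M x})
    (hfq : ∀ r, f (algebraMap R M r) = algebraMap k A (q r))
    {R' : Type u} [CommRing R'] [Algebra R R'] (q' : R' →+* k) (x' : R')
    (hqx' : RingHom.ker q' = Ideal.span {x'}) (hqq' : ∀ r, q' (algebraMap R R' r) = q r) :
    ∃ f' : R' ⊗[R] M →+* A, Function.Surjective f' ∧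
      RingHom.ker f' = Ideal.span {algebraMap R' (R' ⊗[R] M) x'} ∧
      ∀ r, f' (algebraMap R' (R' ⊗[R] M) r) = algebraMap k A (q' r) := by
  classical
  obtain ⟨bb, hbb⟩ := exists_basis_special b x q hq hqx f hf hfx hfq
  let algRA : Algebra R A := ((algebraMap k A).comp q).toAlgebra
  let fS : R' →ₐ[R] A :=
    { toRingHom := (algebraMap k A).comp q'
      commutes' := fun r => by
        change algebraMap k A (q' (algebraMap R R' r)) = algebraMap k A (q r)
        rw [hqq'] }
  let fM : M →ₐ[R] A :=
    { toRingHom := f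
      commutes' := fun r => hfq r }
  let g : R' ⊗[R] M →ₐ[R] A := Algebra.TensorProduct.productMap fS fM
  have hg : ∀ r m, g (r ⊗ₜ m) = algebraMap k A (q' r) * f m := fun r m => by
    simp only [g, Algebra.TensorProduct.productMap_apply_tmul]
    rfl
  have hgR : ∀ r, g (algebraMap R' (R' ⊗[R] M) r) = algebraMap k A (q' r) := by
    intro r
    rw [Algebra.TensorProduct.algebraMap_apply, Algebra.algebraMap_self, RingHom.id_apply, hg,
      map_one, mul_one]
  refine ⟨g.toRingHom, ?_, ?_, hgR⟩
  · intro a
    obtain ⟨m, rfl⟩ := hf a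
    refine ⟨1 ⊗ₜ m, ?_⟩
    change g (1 ⊗ₜ m) = f m
    rw [hg, map_one, map_one, one_mul]
  · apply le_antisymm
    · intro z hz
      have hz' : g z = 0 := hz
      let b' := Algebra.TensorProduct.basis R' b
      have h1 : g z = ∑ i, q' (b'.repr z i) • bb i := by
        conv_lhs => rw [← b'.sum_repr z]
        rw [map_sum]
        refine Finset.sum_congr rfl fun i _ => ?_
        rw [Algebra.smul_def, map_mul, hgR, hbb, Algebra.smul_def]
        congr 1
        simp only [b', Algebra.TensorProduct.basis_apply]
        rw [hg, map_one, map_one, one_mul]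
      rw [hz'] at h1
      have h2 := (Fintype.linearIndependent_iff.mp bb.linearIndependent) _ h1.symm
      have h3 : ∀ i, ∃ y, b'.repr z i = x' * y := by
        intro i
        have : b'.repr z i ∈ RingHom.ker q' := h2 i
        rw [hqx', Ideal.mem_span_singleton] at this
        exact this
      choose y hy using h3
      rw [Ideal.mem_span_singleton]
      refine ⟨∑ i, y i • b' i, ?_⟩
      rw [← Algebra.smul_def, Finset.smul_sum]
      conv_lhs => rw [← b'.sum_repr z]
      refine Finset.sum_congr rfl fun i _ => ?_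
      rw [hy i, mul_smul]
    · rw [Ideal.span_singleton_le_iff_mem, RingHom.mem_ker]
      change g (algebraMap R' (R' ⊗[R] M) x') = 0
      rw [hgR]
      have : x' ∈ RingHom.ker q' := by
        rw [hqx']
        exact Ideal.mem_span_singleton_self _
      rw [RingHom.mem_ker] at this
      rw [this, map_zero]

end special

end Pool.Agent.Helper33

namespace Pool.Agent.Helper33

universe u

/-- All the data of the base change in one statement; the rings `R`, `R'` will be specialised to
the same ring, with a nontrivial algebra structure. -/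
theorem assemble {k R K R' K' M A : Type u} [Field k] [CommRing R] [Field K] [CommRing R']
    [Field K'] [CommRing M] [CommRing A] [Algebra k A] [Algebra R K] [Algebra R M]
    [Algebra R' K'] (iRR' : Algebra R R') (iKK' : Algebra K K') (iRK' : Algebra R K')
    (tower1 : IsScalarTower R K K') (tower2 : IsScalarTower R R' K')
    [Module.Finite R M] [Module.Free R M]
    {ι : Type*} [Fintype ι] (c : Basis ι K (K ⊗[R] M))
    (hsplit : ∀ i, ((minpoly K (c i)).map (algebraMap K K')).Splits)
    (hred : IsReduced (K' ⊗[K] (K ⊗[R] M)))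
    {κ : Type*} [Fintype κ] (b : Basis κ R M) (x : R) (q : R →+* k)
    (hq : Function.Surjective q) (hqx : RingHom.ker q = Ideal.span {x}) (f : M →+* A)
    (hf : Function.Surjective f) (hfx : RingHom.ker f = Ideal.span {algebraMap R M x})
    (hfq : ∀ r, f (algebraMap R M r) = algebraMap k A (q r))
    (q' : R' →+* k) (x' : R')
    (hqx' : RingHom.ker q' = Ideal.span {x'}) (hqq' : ∀ r, q' (algebraMap R R' r) = q r) :
    ∃ (S' : Type u) (_ : CommRing S') (_ : Algebra R' S'), Module.Finite R' S' ∧
      Module.Flat R' S' ∧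
      Nonempty (K' ⊗[R'] S' ≃ₐ[K'] (Fin (finrank K (K ⊗[R] M)) → K')) ∧
      ∃ f' : S' →+* A, Function.Surjective f' ∧
        RingHom.ker f' = Ideal.span {algebraMap R' S' x'} ∧
        ∀ r, f' (algebraMap R' S' r) = algebraMap k A (q' r) :=
  ⟨R' ⊗[R] M, inferInstance, inferInstance, inferInstance, inferInstance,
    baseChange_split M c hsplit hred,
    baseChange_special b x q hq hqx f hf hfx hfq q' x' hqx' hqq'⟩

end Pool.Agent.Helper33

namespace Pool.Agent.Helper33

universe u

/-- The base change along `R → S ≃ R'`. -/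
theorem assemble2 {k R K L S R' K' M A : Type u} [Field k] [CommRing R] [Field K] [Algebra R K]
    [Field L] [Algebra K L] [Algebra.IsAlgebraic K L] [Algebra R L] [IsScalarTower R K L]
    [CommRing S] [Algebra R S] [Algebra S L] [IsScalarTower R S L] [IsFractionRing S L]
    [CommRing R'] [Field K'] [Algebra R' K'] [IsFractionRing R' K'] (e : S ≃+* R')
    [CommRing M] [Algebra R M] [Module.Finite R M] [Module.Free R M] [CommRing A] [Algebra k A]
    [Algebra.IsGeometricallyReduced K (K ⊗[R] M)]
    {ι : Type*} [Fintype ι] (c : Basis ι K (K ⊗[R] M))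
    (hsplit : ∀ i, ((minpoly K (c i)).map (algebraMap K L)).Splits)
    {κ : Type*} [Fintype κ] (b : Basis κ R M) (x : R) (q : R →+* k)
    (hq : Function.Surjective q) (hqx : RingHom.ker q = Ideal.span {x}) (f : M →+* A)
    (hf : Function.Surjective f) (hfx : RingHom.ker f = Ideal.span {algebraMap R M x})
    (hfq : ∀ r, f (algebraMap R M r) = algebraMap k A (q r))
    (q' : R' →+* k) (x' : R')
    (hqx' : RingHom.ker q' = Ideal.span {x'}) (hqq' : ∀ r, q' (e (algebraMap R S r)) = q r) :
    ∃ (S' : Type u) (_ : CommRing S') (_ : Algebra R' S'), Module.Finite R' S' ∧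
      Module.Flat R' S' ∧
      Nonempty (K' ⊗[R'] S' ≃ₐ[K'] (Fin (finrank K (K ⊗[R] M)) → K')) ∧
      ∃ f' : S' →+* A, Function.Surjective f' ∧
        RingHom.ker f' = Ideal.span {algebraMap R' S' x'} ∧
        ∀ r, f' (algebraMap R' S' r) = algebraMap k A (q' r) := by
  let eL : L ≃+* K' := IsFractionRing.ringEquivOfRingEquiv e
  have heL : ∀ s : S, eL (algebraMap S L s) = algebraMap R' K' (e s) := fun s =>
    IsFractionRing.ringEquivOfRingEquiv_algebraMap e s
  let iRR' : Algebra R R' := ((e : S →+* R').comp (algebraMap R S)).toAlgebra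
  let iKK' : Algebra K K' := ((eL : L →+* K').comp (algebraMap K L)).toAlgebra
  let iRK' : Algebra R K' := ((algebraMap R' K').comp (algebraMap R R')).toAlgebra
  have tower2 : IsScalarTower R R' K' := IsScalarTower.of_algebraMap_eq fun _ => rfl
  have tower1 : IsScalarTower R K K' := IsScalarTower.of_algebraMap_eq fun r => by
    change algebraMap R' K' (e (algebraMap R S r)) = eL (algebraMap K L (algebraMap R K r))
    rw [← IsScalarTower.algebraMap_apply R K L, IsScalarTower.algebraMap_apply R S L, heL]
  let eA : L ≃ₐ[K] K' := AlgEquiv.ofRingEquiv (f := eL) (fun _ => rfl)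
  have halg : Algebra.IsAlgebraic K K' := eA.isAlgebraic
  have hred : IsReduced (K' ⊗[K] (K ⊗[R] M)) := inferInstance
  refine assemble iRR' iKK' iRK' tower1 tower2 c (fun i => ?_) hred b x q hq hqx f hf hfx hfq
    q' x' hqx' hqq'
  have h1 : (minpoly K (c i)).map (algebraMap K K') =
      ((minpoly K (c i)).map (algebraMap K L)).map (eL : L →+* K') := by
    rw [Polynomial.map_map]
    rfl
  rw [h1]
  exact (hsplit i).map _

end Pool.Agent.Helper33
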