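import Mathlib

/-!
A complete discrete valuation ring over a field mapping onto its residue field is a power series
ring (elementary form).
-/

open PowerSeries

namespace Pool.Agent.Helper33

section digits

variable {k S : Type*} [Field k] [CommRing S] [IsDomain S] [Algebra k S]

/-- A domain with a uniformizer `π`, residue field `k`, separated and complete for powers of
`π`, is isomorphic to `k⟦X⟧` as a `k`-algebra. -/
theorem nonempty_algEquiv_powerSeries (π : S) (hπ0 : π ≠ 0)
    (hres : ∀ s : S, ∃ c : k, π ∣ s - algebraMap k S c)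
    (hunit : ∀ c : k, π ∣ algebraMap k S c → c = 0)
    (hHaus : ∀ s : S, (∀ n : ℕ, π ^ n ∣ s) → s = 0)
    (hcomp : ∀ a : ℕ → k, ∃ s : S, ∀ N : ℕ,
      π ^ N ∣ s - ∑ i ∈ Finset.range N, algebraMap k S (a i) * π ^ i) :
    Nonempty (S ≃ₐ[k] k⟦X⟧) := by
  classical
  choose c hc using hres
  choose nx hnx using hc
  -- s = c s + π * nx s
  have hs : ∀ s, s = algebraMap k S (c s) + π * nx s := fun s => by
    linear_combination hnx s
  -- uniqueness
  have huniq : ∀ (s : S) (a : k) (y : S), s = algebraMap k S a + π * y → c s = a ∧ nx s = y := by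
    intro s a y h
    have h1 := hs s
    have h2 : algebraMap k S (c s - a) = π * (y - nx s) := by
      rw [map_sub]
      linear_combination h - h1
    have h3 : c s - a = 0 := hunit _ ⟨_, h2⟩
    refine ⟨sub_eq_zero.mp h3, ?_⟩
    rw [h3, map_zero] at h2
    have h4 := (mul_eq_zero.mp h2.symm).resolve_left hπ0
    exact (sub_eq_zero.mp h4).symm
  have hadd : ∀ s s', c (s + s') = c s + c s' ∧ nx (s + s') = nx s + nx s' := by
    intro s s'
    apply huniq
    rw [map_add]
    linear_combination hs s + hs s'
  have hmul : ∀ s s', c (s * s') = c s * c s' ∧ nx (s * s') =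
      algebraMap k S (c s) * nx s' + algebraMap k S (c s') * nx s + π * (nx s * nx s') := by
    intro s s'
    apply huniq
    rw [map_mul]
    have h1 := hs s
    have h2 := hs s'
    calc s * s' = (algebraMap k S (c s) + π * nx s) * (algebraMap k S (c s') + π * nx s') := by
          rw [← h1, ← h2]
      _ = _ := by ring
  have hconst : ∀ a : k, c (algebraMap k S a) = a ∧ nx (algebraMap k S a) = 0 := by
    intro a
    apply huniq
    ring
  have hpi : ∀ s, c (π * s) = 0 ∧ nx (π * s) = s := by
    intro s
    apply huniq
    rw [map_zero, zero_add]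
  have hscal : ∀ (a : k) s, c (algebraMap k S a * s) = a * c s ∧
      nx (algebraMap k S a * s) = algebraMap k S a * nx s := by
    intro a s
    apply huniq
    rw [map_mul]
    have h1 := hs s
    calc algebraMap k S a * s = algebraMap k S a * (algebraMap k S (c s) + π * nx s) := by
          rw [← h1]
      _ = _ := by ring
  let ψ : S → k⟦X⟧ := fun s => PowerSeries.mk fun n => c (nx^[n] s)
  have hψ0 : ∀ s, coeff 0 (ψ s) = c s := fun s => by simp [ψ]
  have hψs : ∀ s n, coeff (n + 1) (ψ s) = coeff n (ψ (nx s)) := fun s n => by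
    simp [ψ]
  have hψrec : ∀ s, ψ s = C (c s) + X * ψ (nx s) := by
    intro s
    ext n
    cases n with
    | zero => rw [hψ0]; simp
    | succ n => rw [hψs]; simp [coeff_succ_X_mul, coeff_succ_C]
  have hψadd : ∀ s s', ψ (s + s') = ψ s + ψ s' := by
    intro s s'
    ext n
    induction n generalizing s s' with
    | zero => rw [map_add, hψ0, hψ0, hψ0, (hadd s s').1]
    | succ n ih => rw [map_add, hψs, hψs, hψs, (hadd s s').2, ih, map_add]
  have hψscal : ∀ (a : k) s, ψ (algebraMap k S a * s) = C a * ψ s := by
    intro a s
    ext n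
    induction n generalizing s with
    | zero => rw [hψ0, (hscal a s).1]; simp [hψ0]
    | succ n ih => rw [hψs, (hscal a s).2, ih]; simp [hψs]
  have hψpi : ∀ s, ψ (π * s) = X * ψ s := by
    intro s
    rw [hψrec, (hpi s).1, (hpi s).2, map_zero, zero_add]
  have hψmul : ∀ s s', ψ (s * s') = ψ s * ψ s' := by
    have key : ∀ n, ∀ m ≤ n, ∀ s s', coeff m (ψ (s * s')) = coeff m (ψ s * ψ s') := by
      intro n
      induction n with
      | zero =>
        intro m hm s s'
        obtain rfl : m = 0 := by omega
        rw [hψ0, (hmul s s').1, coeff_mul]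
        simp [hψ0]
      | succ n ih =>
        intro m hm s s'
        rcases Nat.lt_or_ge m (n + 1) with h | h
        · exact ih m (by omega) s s'
        obtain rfl : m = n + 1 := by omega
        rw [hψs, (hmul s s').2, hψadd, hψadd, hψscal, hψscal, hψpi]
        have h2 : ψ s * ψ s' = C (c s * c s') + X * (C (c s) * ψ (nx s') + C (c s') * ψ (nx s)
            + X * (ψ (nx s) * ψ (nx s'))) := by
          rw [hψrec s, hψrec s', map_mul]
          ring
        have h3 : coeff (n + 1) (ψ s * ψ s') = coeff n (C (c s) * ψ (nx s') +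
            C (c s') * ψ (nx s) + X * (ψ (nx s) * ψ (nx s'))) := by
          rw [h2, map_add, coeff_succ_X_mul, coeff_succ_C, zero_add]
        rw [h3, map_add, map_add (coeff n) _ (X * _)]
        congr 1
        cases n with
        | zero => simp
        | succ n => rw [coeff_succ_X_mul, coeff_succ_X_mul, ih n (by omega)]
    intro s s'
    ext n
    exact key n n le_rfl s s'
  have hψalg : ∀ a : k, ψ (algebraMap k S a) = C a := by
    intro a
    have h0 : ψ 0 = 0 := by
      have := hψadd 0 0
      rw [add_zero] at this
      exact left_eq_add.mp this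
    rw [hψrec, (hconst a).1, (hconst a).2, h0, mul_zero, add_zero]
  have hψsum : ∀ (a : ℕ → k) (N : ℕ) (y : S),
      ψ ((∑ i ∈ Finset.range N, algebraMap k S (a i) * π ^ i) + π ^ N * y) =
        (∑ i ∈ Finset.range N, C (a i) * X ^ i) + X ^ N * ψ y := by
    intro a N
    induction N generalizing a with
    | zero => intro y; simp
    | succ N ih =>
      intro y
      have h1 : (∑ i ∈ Finset.range (N + 1), algebraMap k S (a i) * π ^ i) + π ^ (N + 1) * y =
          algebraMap k S (a 0) + π * ((∑ i ∈ Finset.range N,
            algebraMap k S (a (i + 1)) * π ^ i) + π ^ N * y) := by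
        rw [Finset.sum_range_succ', mul_add, Finset.mul_sum, pow_zero, mul_one]
        have : ∀ i, algebraMap k S (a (i + 1)) * π ^ (i + 1) =
            π * (algebraMap k S (a (i + 1)) * π ^ i) := fun i => by ring
        simp only [this]
        ring
      rw [h1, hψadd, hψalg, hψpi, ih (fun i => a (i + 1)), Finset.sum_range_succ', mul_add,
        Finset.mul_sum, pow_zero, mul_one]
      have : ∀ i, C (a (i + 1)) * X ^ (i + 1) =
            (X : k⟦X⟧) * (C (a (i + 1)) * X ^ i) := fun i => by ring
      simp only [this]
      ring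
  let F : S →ₐ[k] k⟦X⟧ :=
    { toFun := ψ
      map_one' := by
        have := hψalg 1
        rwa [map_one, map_one] at this
      map_mul' := hψmul
      map_zero' := by
        have := hψalg 0
        rwa [map_zero, map_zero] at this
      map_add' := hψadd
      commutes' := fun a => by
        rw [hψalg]
        rfl }
  refine ⟨AlgEquiv.ofBijective F ⟨?_, ?_⟩⟩
  · rw [injective_iff_map_eq_zero]
    intro s hs0
    have hs0' : ψ s = 0 := hs0
    apply hHaus
    intro n
    have key : ∀ n, ∀ s, ψ s = 0 → ∃ y, s = π ^ n * y ∧ ψ y = 0 := by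
      intro n
      induction n with
      | zero => intro s h; exact ⟨s, by simp, h⟩
      | succ n ih =>
        intro s h
        have h1 : c s = 0 := by rw [← hψ0, h, map_zero]
        have h2 : ψ (nx s) = 0 := by
          ext m
          rw [← hψs, h, map_zero, map_zero]
        obtain ⟨y, hy, hy2⟩ := ih _ h2
        refine ⟨y, ?_, hy2⟩
        rw [hs s, h1, map_zero, zero_add, hy]
        ring
    obtain ⟨y, hy, -⟩ := key n s hs0'
    exact ⟨y, hy⟩
  · intro f
    obtain ⟨s, hs⟩ := hcomp fun i => coeff i f
    refine ⟨s, ?_⟩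
    change ψ s = f
    ext n
    obtain ⟨y, hy⟩ := hs (n + 1)
    have h1 : s = (∑ i ∈ Finset.range (n + 1), algebraMap k S (coeff i f) * π ^ i) +
        π ^ (n + 1) * y := by linear_combination hy
    rw [h1, hψsum, map_add, coeff_X_pow_mul', if_neg (by omega), add_zero, map_sum]
    rw [Finset.sum_eq_single n]
    · simp
    · intro b _ hb
      rw [coeff_C_mul, coeff_X_pow, if_neg (Ne.symm hb), mul_zero]
    · intro h
      simp at h

end digits

end Pool.Agent.Helper33
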