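import Mathlib
import Pool.Agent.Helper33.Cohen

/-!
A Dedekind domain finite over `k⟦X⟧`, with `k` algebraically closed, is again a power series ring.
-/

open PowerSeries Module

namespace Pool.Agent.Helper33

section complete

variable {R S : Type*} [CommRing R] [CommRing S] [Algebra R S]

theorem isAdicComplete_of_basis {ι : Type*} [Fintype ι] (b : Basis ι R S) (x : R)
    [IsAdicComplete (Ideal.span {x}) R] :
    IsAdicComplete (Ideal.span {algebraMap R S x}) S := by
  classical
  have hmemR : ∀ (n : ℕ) (r : R), r ∈ ((Ideal.span {x}) ^ n • ⊤ : Submodule R R) ↔ x ^ n ∣ r := by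
    intro n r
    rw [smul_eq_mul, Ideal.mul_top, Ideal.span_singleton_pow, Ideal.mem_span_singleton]
  have hmemS : ∀ (n : ℕ) (s : S), s ∈ ((Ideal.span {algebraMap R S x}) ^ n • ⊤ : Submodule S S) ↔
      (algebraMap R S x) ^ n ∣ s := by
    intro n s
    rw [smul_eq_mul, Ideal.mul_top, Ideal.span_singleton_pow, Ideal.mem_span_singleton]
  have hdvd : ∀ (n : ℕ) (s : S), (algebraMap R S x) ^ n ∣ s ↔ ∀ i, x ^ n ∣ b.repr s i := by
    intro n s
    constructor
    · rintro ⟨y, rfl⟩ i
      rw [← map_pow, ← Algebra.smul_def, map_smul]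
      exact ⟨b.repr y i, rfl⟩
    · intro h
      choose y hy using h
      refine ⟨∑ i, y i • b i, ?_⟩
      rw [← map_pow, ← Algebra.smul_def, Finset.smul_sum]
      conv_lhs => rw [← b.sum_repr s]
      refine Finset.sum_congr rfl fun i _ => ?_
      rw [hy i, mul_smul]
  refine { haus' := ?_, prec' := ?_ }
  · intro s hs
    have h1 : ∀ i, b.repr s i = 0 := by
      intro i
      refine IsHausdorff.haus' (I := Ideal.span {x}) (M := R) _ fun n => ?_
      have := hs n
      rw [SModEq.zero, hmemS, hdvd] at this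
      rw [SModEq.zero, hmemR]
      exact this i
    apply b.repr.injective
    ext i
    rw [h1 i]
    simp
  · intro f hf
    have h1 : ∀ i, ∃ L : R, ∀ n, b.repr (f n) i ≡ L [SMOD ((Ideal.span {x}) ^ n • ⊤ : Submodule R R)] := by
      intro i
      refine IsPrecomplete.prec' (I := Ideal.span {x}) (M := R) _ fun {m n} hmn => ?_
      have := hf hmn
      rw [SModEq.sub_mem, hmemS, hdvd] at this
      rw [SModEq.sub_mem, hmemR]
      have := this i
      rwa [map_sub] at this
    choose L hL using h1
    refine ⟨∑ i, L i • b i, fun n => ?_⟩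
    rw [SModEq.sub_mem, hmemS, hdvd]
    intro i
    have := hL i n
    rw [SModEq.sub_mem, hmemR] at this
    rw [map_sub, Finsupp.sub_apply]
    convert this using 2
    simp [Finsupp.single_apply]

end complete

section main

theorem X_mem_of_isMaximal (k : Type*) {S : Type*} [Field k] [CommRing S]
    [Algebra k⟦X⟧ S] [Module.Finite k⟦X⟧ S] (P : Ideal S) [P.IsMaximal] :
    algebraMap k⟦X⟧ S X ∈ P := by
  have h : (P.comap (algebraMap k⟦X⟧ S)).IsMaximal :=
    Ideal.isMaximal_comap_of_isIntegral_of_isMaximal P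
  have h2 := IsLocalRing.eq_maximalIdeal h
  have h3 : (X : k⟦X⟧) ∈ P.comap (algebraMap k⟦X⟧ S) := by
    rw [h2, PowerSeries.maximalIdeal_eq_span_X]
    exact Ideal.mem_span_singleton_self _
  exact h3

theorem isLocalRing_of_finite (k S : Type*) [Field k] [CommRing S]
    [Algebra k⟦X⟧ S] [Module.Finite k⟦X⟧ S]
    [FaithfulSMul k⟦X⟧ S] [IsDedekindDomain S] : IsLocalRing S := by
  classical
  have htf : Module.IsTorsionFree k⟦X⟧ S := inferInstance
  have hfree : Module.Free k⟦X⟧ S := inferInstance
  let b := Module.finBasis k⟦X⟧ S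
  have hcomp : IsAdicComplete (Ideal.span {algebraMap k⟦X⟧ S X}) S := isAdicComplete_of_basis b X
  have hhens : HenselianRing S (Ideal.span {algebraMap k⟦X⟧ S X}) := inferInstance
  set t := algebraMap k⟦X⟧ S X with ht
  have ht0 : t ≠ 0 := by
    rw [ht, Ne, map_eq_zero_iff _ (FaithfulSMul.algebraMap_injective _ _)]
    exact X_ne_zero
  obtain ⟨P, hP⟩ := Ideal.exists_maximal S
  refine IsLocalRing.of_unique_max_ideal ⟨P, hP, fun Q hQ => ?_⟩
  by_contra hne
  have htP : t ∈ P := X_mem_of_isMaximal k P
  have htQ : t ∈ Q := X_mem_of_isMaximal k Q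
  have hP0 : P ≠ ⊥ := by
    intro h
    rw [h, Ideal.mem_bot] at htP
    exact ht0 htP
  -- factor t S = P ^ e * J
  have hprime : Prime P := Ideal.prime_of_isPrime hP0 hP.isPrime
  have hI0 : Ideal.span {t} ≠ (0 : Ideal S) := by
    rw [Ne, Ideal.zero_eq_bot, Ideal.span_singleton_eq_bot]
    exact ht0
  obtain ⟨e, J, hJ, hfac⟩ := WfDvdMonoid.max_power_factor hI0 hprime.irreducible
  have hJP : ¬ J ≤ P := by
    rw [← Ideal.dvd_iff_le]
    exact hJ
  have hcop : IsCoprime (P ^ e) J := by
    apply IsCoprime.pow_left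
    rw [Ideal.isCoprime_iff_sup_eq]
    by_contra hcon
    have := hP.eq_of_le hcon le_sup_left
    apply hJP
    rw [this]
    exact le_sup_right
  obtain ⟨a0, ha0, c0, hc0, hac⟩ := Ideal.isCoprime_iff_exists.mp hcop
  -- a0 ^ 2 - a0 ∈ (t)
  have he : e ≠ 0 := by
    rintro rfl
    apply hJ
    rw [Ideal.dvd_iff_le]
    rw [pow_zero, one_mul] at hfac
    rw [← hfac, Ideal.span_singleton_le_iff_mem]
    exact htP
  have ha0P : a0 ∈ P := Ideal.pow_le_self he ha0
  have hJQ : J ≤ Q := by
    have h1 : P ^ e * J ≤ Q := by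
      rw [← hfac, Ideal.span_singleton_le_iff_mem]
      exact htQ
    rcases (hQ.isPrime.mul_le).mp h1 with h | h
    · exfalso
      have h2 : P ≤ Q := (hQ.isPrime.pow_le_iff he).mp h
      exact hne (hP.eq_of_le hQ.ne_top h2).symm
    · exact h
  have hmem : a0 ^ 2 - a0 ∈ Ideal.span {t} := by
    rw [hfac]
    have : a0 ^ 2 - a0 = -(a0 * c0) := by linear_combination a0 * hac
    rw [this]
    exact neg_mem (Ideal.mul_mem_mul ha0 hc0)
  have hroot : (Polynomial.X ^ 2 - Polynomial.X : Polynomial S).eval a0 ∈ Ideal.span {t} := by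
    simpa using hmem
  have hmonic : (Polynomial.X ^ 2 - Polynomial.X : Polynomial S).Monic := by
    have : (Polynomial.X ^ 2 - Polynomial.X : Polynomial S) =
        Polynomial.X ^ 2 + (-Polynomial.X) := by ring
    rw [this]
    refine Polynomial.monic_X_pow_add ?_
    rw [Polynomial.degree_neg, Polynomial.degree_X]
    norm_num
  have hder : IsUnit (Ideal.Quotient.mk (Ideal.span {t})
      ((Polynomial.X ^ 2 - Polynomial.X : Polynomial S).derivative.eval a0)) := by
    refine IsUnit.of_mul_eq_one (Ideal.Quotient.mk (Ideal.span {t})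
      ((Polynomial.X ^ 2 - Polynomial.X : Polynomial S).derivative.eval a0)) ?_
    rw [← map_mul, ← map_one (Ideal.Quotient.mk (Ideal.span {t})), Ideal.Quotient.eq]
    have : ((Polynomial.X ^ 2 - Polynomial.X : Polynomial S).derivative.eval a0) *
        ((Polynomial.X ^ 2 - Polynomial.X : Polynomial S).derivative.eval a0) - 1 =
        4 * (a0 ^ 2 - a0) := by
      simp
      ring
    rw [this]
    exact Ideal.mul_mem_left _ _ hmem
  obtain ⟨a, ha, haa0⟩ := hhens.is_henselian _ hmonic a0 hroot hder
  have hidem : a * (a - 1) = 0 := by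
    have : a ^ 2 - a = 0 := by simpa using ha
    linear_combination this
  have htspan : ∀ I : Ideal S, t ∈ I → ∀ y ∈ Ideal.span {t}, y ∈ I := fun I hI y hy =>
    (Ideal.span_singleton_le_iff_mem I).mpr hI hy
  rcases mul_eq_zero.mp hidem with h | h
  · -- a = 0 : a0 ∈ (t) ⊆ Q, 1 - a0 ∈ Q
    have h1 : a0 ∈ Q := by
      apply htspan Q htQ
      have := neg_mem haa0
      rwa [h, zero_sub, neg_neg] at this
    apply hQ.ne_top
    rw [Ideal.eq_top_iff_one, ← hac]
    exact add_mem h1 (hJQ hc0)
  · have h1 : 1 - a0 ∈ P := by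
      apply htspan P htP
      rwa [sub_eq_zero.mp h] at haa0
    apply hP.ne_top
    rw [Ideal.eq_top_iff_one]
    have := add_mem h1 ha0P
    rwa [sub_add_cancel] at this

/-- A Dedekind domain which is finite (and faithful) over `k⟦X⟧`, with `k` algebraically closed,
is isomorphic to `k⟦X⟧` as a `k`-algebra. -/
theorem nonempty_algEquiv_of_finite (k S : Type*) [Field k] [IsAlgClosed k] [CommRing S]
    [Algebra k⟦X⟧ S] [Algebra k S] [IsScalarTower k k⟦X⟧ S] [Module.Finite k⟦X⟧ S]
    [FaithfulSMul k⟦X⟧ S] [IsDedekindDomain S] : Nonempty (S ≃ₐ[k] k⟦X⟧) := by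
  classical
  have hloc : IsLocalRing S := isLocalRing_of_finite k S
  have htf : Module.IsTorsionFree k⟦X⟧ S := inferInstance
  have hfree : Module.Free k⟦X⟧ S := inferInstance
  let b := Module.finBasis k⟦X⟧ S
  have hcomp : IsAdicComplete (Ideal.span {algebraMap k⟦X⟧ S X}) S := isAdicComplete_of_basis b X
  set t := algebraMap k⟦X⟧ S X with ht
  have ht0 : t ≠ 0 := by
    rw [ht, Ne, map_eq_zero_iff _ (FaithfulSMul.algebraMap_injective _ _)]
    exact X_ne_zero
  have htm : t ∈ IsLocalRing.maximalIdeal S := X_mem_of_isMaximal k _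
  have hnf : ¬ IsField S := by
    intro h
    have := h.mul_inv_cancel ht0
    obtain ⟨u, hu⟩ := this
    exact (IsLocalRing.mem_maximalIdeal t).mp htm (IsUnit.of_mul_eq_one u hu)
  have hdd : IsDedekindDomain S := inferInstance
  have hdvr : IsDiscreteValuationRing S := by
    have := (IsDiscreteValuationRing.TFAE S hnf).out 2 0
    exact this.mp hdd
  obtain ⟨π, hπ⟩ := IsDiscreteValuationRing.exists_irreducible S
  have hmax : IsLocalRing.maximalIdeal S = Ideal.span {π} := hπ.maximalIdeal_eq
  obtain ⟨e, hassoc⟩ := IsDiscreteValuationRing.associated_pow_irreducible ht0 hπ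
  have halg : ∀ c : k, algebraMap k S c = algebraMap k⟦X⟧ S (C c) := fun c =>
    IsScalarTower.algebraMap_apply k k⟦X⟧ S c
  -- the residue field is k
  have hres : ∀ s : S, ∃ c : k, π ∣ s - algebraMap k S c := by
    let κ := IsLocalRing.ResidueField S
    have hfin : Module.Finite k κ := by
      have h1 : Module.Finite k⟦X⟧ κ :=
        Module.Finite.of_surjective
          ((IsScalarTower.toAlgHom k⟦X⟧ S κ).toLinearMap) IsLocalRing.residue_surjective
      obtain ⟨T, hT⟩ := h1
      refine ⟨T, ?_⟩
      rw [eq_top_iff]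
      intro z _
      have hz : z ∈ Submodule.span k⟦X⟧ (T : Set κ) := by rw [hT]; trivial
      induction hz using Submodule.span_induction with
      | mem x hx => exact Submodule.subset_span hx
      | zero => exact zero_mem _
      | add x y _ _ hx hy => exact add_mem (hx trivial) (hy trivial)
      | smul r x _ hx =>
        have hr : r • x = (constantCoeff r) • x := by
          have h2 : r - C (constantCoeff r) = X * (PowerSeries.mk fun n => coeff (n + 1) r) := by
            have := PowerSeries.sub_const_eq_X_mul_shift r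
            exact this
          have h3 : algebraMap k⟦X⟧ κ (r - C (constantCoeff r)) = 0 := by
            rw [h2, map_mul, IsScalarTower.algebraMap_apply k⟦X⟧ S κ X, ← ht]
            have : algebraMap S κ t = 0 := (IsLocalRing.residue_eq_zero_iff t).mpr htm
            rw [this, zero_mul]
          rw [map_sub, sub_eq_zero] at h3
          rw [Algebra.smul_def, h3, Algebra.smul_def, IsScalarTower.algebraMap_apply k S κ, halg,
            ← IsScalarTower.algebraMap_apply k⟦X⟧ S κ]
        rw [hr]
        exact Submodule.smul_mem _ _ (hx trivial)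
    have hsurj : Function.Surjective (algebraMap k κ) :=
      IsAlgClosed.algebraMap_bijective_of_isIntegral.2
    intro s
    obtain ⟨c, hc⟩ := hsurj (IsLocalRing.residue S s)
    refine ⟨c, ?_⟩
    rw [← Ideal.mem_span_singleton, ← hmax, ← IsLocalRing.residue_eq_zero_iff, map_sub, sub_eq_zero,
      ← hc]
    rfl
  refine nonempty_algEquiv_powerSeries π hπ.ne_zero hres ?_ ?_ ?_
  · intro c hc
    by_contra hne
    apply hπ.not_isUnit
    exact isUnit_of_dvd_unit hc ((IsUnit.mk0 c hne).map _)
  · intro s hs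
    have hH : IsHausdorff (IsLocalRing.maximalIdeal S) S := inferInstance
    refine IsHausdorff.haus' (I := IsLocalRing.maximalIdeal S) (M := S) _ fun n => ?_
    rw [SModEq.zero, smul_eq_mul, Ideal.mul_top, hmax, Ideal.span_singleton_pow,
      Ideal.mem_span_singleton]
    exact hs n
  · intro a
    have hmemS : ∀ (n : ℕ) (s : S), s ∈ ((Ideal.span {t}) ^ n • ⊤ : Submodule S S) ↔
        t ^ n ∣ s := by
      intro n s
      rw [smul_eq_mul, Ideal.mul_top, Ideal.span_singleton_pow, Ideal.mem_span_singleton]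
    have he : e ≠ 0 := by
      rintro rfl
      rw [pow_zero] at hassoc
      exact (IsLocalRing.mem_maximalIdeal t).mp htm (hassoc.isUnit_iff.mpr isUnit_one)
    have htn : ∀ n (s : S), t ^ n ∣ s ↔ π ^ (e * n) ∣ s := by
      intro n s
      rw [pow_mul]
      exact (hassoc.pow_pow).dvd_iff_dvd_left
    have hdiff : ∀ m n : ℕ, m ≤ n → π ^ m ∣
        (∑ i ∈ Finset.range m, algebraMap k S (a i) * π ^ i) -
        ∑ i ∈ Finset.range n, algebraMap k S (a i) * π ^ i := by
      intro m n hmn
      rw [← Finset.sum_range_add_sum_Ico _ hmn]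
      rw [sub_add_cancel_left, dvd_neg]
      refine Finset.dvd_sum fun i hi => ?_
      rw [Finset.mem_Ico] at hi
      exact Dvd.dvd.mul_left (pow_dvd_pow _ hi.1) _
    obtain ⟨s, hs⟩ := IsPrecomplete.prec' (I := Ideal.span {t}) (M := S)
      (fun n => ∑ i ∈ Finset.range (e * n), algebraMap k S (a i) * π ^ i) (by
        intro m n hmn
        rw [SModEq.sub_mem, hmemS, htn]
        exact hdiff _ _ (Nat.mul_le_mul_left e hmn))
    refine ⟨s, fun N => ?_⟩
    have h1 := hs N
    rw [SModEq.sub_mem, hmemS, htn] at h1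
    have hle : N ≤ e * N := Nat.le_mul_of_pos_left N (Nat.pos_of_ne_zero he)
    have h2 := hdiff N (e * N) hle
    have h3 : π ^ N ∣ (∑ i ∈ Finset.range (e * N), algebraMap k S (a i) * π ^ i) - s :=
      (pow_dvd_pow π hle).trans h1
    have h4 := dvd_add h2 h3
    rw [sub_add_sub_cancel] at h4
    rw [← dvd_neg, neg_sub]
    exact h4

end main

end Pool.Agent.Helper33
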